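import Mathlib

/-! Transversal designs `TD(k, X)` as families of blocks, product, ring construction and
Wilson's construction. -/

set_option autoImplicit false

namespace Pool.Agent.Hhelper81.MOLS

/-- `X` carries a transversal design with `k` groups: a type of blocks with `k` coordinates such
that any two different coordinates give a bijection onto `X × X`. -/
def HasTD (k : ℕ) (X : Type) : Prop :=
  ∃ (B : Type) (f : B → Fin k → X), ∀ i j : Fin k, i ≠ j →
    Function.Bijective (fun b : B => (f b i, f b j))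

theorem HasTD.equiv {k : ℕ} {X Y : Type} (h : HasTD k X) (e : X ≃ Y) : HasTD k Y := by
  obtain ⟨B, f, hf⟩ := h
  refine ⟨B, fun b i => e (f b i), fun i j hij => ?_⟩
  have := (e.prodCongr e).bijective.comp (hf i j hij)
  exact this

theorem HasTD.prod {k : ℕ} {X Y : Type} (h : HasTD k X) (h' : HasTD k Y) :
    HasTD k (X × Y) := by
  obtain ⟨B, f, hf⟩ := h
  obtain ⟨C, g, hg⟩ := h'
  refine ⟨B × C, fun b i => (f b.1 i, g b.2 i), fun i j hij => ⟨?_, ?_⟩⟩
  · rintro ⟨b, c⟩ ⟨b', c'⟩ h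
    simp only [Prod.mk.injEq] at h
    have h1 : b = b' := (hf i j hij).1 (by simp [h.1.1, h.2.1])
    have h2 : c = c' := (hg i j hij).1 (by simp [h.1.2, h.2.2])
    rw [h1, h2]
  · rintro ⟨⟨x, y⟩, ⟨x', y'⟩⟩
    obtain ⟨b, hb⟩ := (hf i j hij).2 (x, x')
    obtain ⟨c, hc⟩ := (hg i j hij).2 (y, y')
    simp only [Prod.mk.injEq] at hb hc
    exact ⟨(b, c), by simp [hb.1, hb.2, hc.1, hc.2]⟩

/-- a two by two matrix with unit determinant gives a bijection -/
theorem lin_bij {R : Type} [CommRing R] (a b c d : R) (h : IsUnit (a * d - b * c)) :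
    Function.Bijective (fun p : R × R => (a * p.1 + b * p.2, c * p.1 + d * p.2)) := by
  obtain ⟨u, hu⟩ := h
  have hv : (↑u⁻¹ : R) * (a * d - b * c) = 1 := by rw [← hu]; simp
  refine ⟨?_, ?_⟩
  · rintro ⟨x, y⟩ ⟨x', y'⟩ h
    simp only [Prod.mk.injEq] at h
    have hx : x = x' := by
      have : (a * d - b * c) * x = (a * d - b * c) * x' := by
        linear_combination d * h.1 - b * h.2
      calc x = (↑u⁻¹ : R) * ((a * d - b * c) * x) := by rw [← mul_assoc, hv, one_mul]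
        _ = (↑u⁻¹ : R) * ((a * d - b * c) * x') := by rw [this]
        _ = x' := by rw [← mul_assoc, hv, one_mul]
    have hy : y = y' := by
      have : (a * d - b * c) * y = (a * d - b * c) * y' := by
        linear_combination a * h.2 - c * h.1
      calc y = (↑u⁻¹ : R) * ((a * d - b * c) * y) := by rw [← mul_assoc, hv, one_mul]
        _ = (↑u⁻¹ : R) * ((a * d - b * c) * y') := by rw [this]
        _ = y' := by rw [← mul_assoc, hv, one_mul]
    rw [hx, hy]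
  · rintro ⟨s, t⟩
    refine ⟨((↑u⁻¹ : R) * (d * s - b * t), (↑u⁻¹ : R) * (a * t - c * s)), ?_⟩
    simp only [Prod.mk.injEq]
    constructor
    · linear_combination s * hv
    · linear_combination t * hv

theorem hasTD_of_vectors {R : Type} [CommRing R] {k : ℕ} (v : Fin k → R × R)
    (hv : ∀ i j, i ≠ j → IsUnit ((v i).1 * (v j).2 - (v i).2 * (v j).1)) : HasTD k R :=
  ⟨R × R, fun b i => (v i).1 * b.1 + (v i).2 * b.2, fun i j hij => lin_bij _ _ _ _ (hv i j hij)⟩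

/-- four groups from a unit `u` with `u - 1` a unit -/
theorem hasTD_four {R : Type} [CommRing R] (u : R) (h : IsUnit u) (h' : IsUnit (u - 1)) :
    HasTD 4 R := by
  have h'' : IsUnit (1 - u) := by rw [← neg_sub]; exact h'.neg
  refine hasTD_of_vectors (![(1, 0), (0, 1), (1, 1), (1, u)]) ?_
  intro i j hij
  fin_cases i <;> fin_cases j <;> simp_all

/-- five groups from `2, 3` units -/
theorem hasTD_five {R : Type} [CommRing R] (h2 : IsUnit (2 : R)) (h3 : IsUnit (3 : R)) :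
    HasTD 5 R := by
  have e1 : (3 : R) - 1 = 2 := by norm_num
  have e2 : (1 : R) - 3 = -2 := by norm_num
  have e3 : (2 : R) - 1 = 1 := by norm_num
  have e4 : (1 : R) - 2 = -1 := by norm_num
  have e5 : (3 : R) - 2 = 1 := by norm_num
  have e6 : (2 : R) - 3 = -1 := by norm_num
  refine hasTD_of_vectors (![(1, 0), (0, 1), (1, 1), (1, 2), (1, 3)]) ?_
  intro i j hij
  fin_cases i <;> fin_cases j <;> simp_all

/-- Wilson's construction with weight 3. -/
theorem wilson {T : Type} (U : T → Prop) (h5 : HasTD 5 T) (h3 : HasTD 4 (Fin 3))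
    (h4 : ∃ (B : Type) (f : B → Fin 4 → Option (Fin 3)) (b₀ : B), (∀ k, f b₀ k = none) ∧
      ∀ i j : Fin 4, i ≠ j → Function.Bijective (fun b : B => (f b i, f b j)))
    (hU : HasTD 4 {x : T // U x}) : HasTD 4 ((T × Fin 3) ⊕ {x : T // U x}) := by
  classical
  obtain ⟨B5, f5, hf5⟩ := h5
  obtain ⟨B3, f3, hf3⟩ := h3
  obtain ⟨B4, f4, c₀, hc₀, hf4⟩ := h4
  obtain ⟨BU, fU, hfU⟩ := hU
  let F1 : {p : B5 × B3 // ¬ U (f5 p.1 (Fin.last 4))} → Fin 4 → (T × Fin 3) ⊕ {x : T // U x} :=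
    fun p k => Sum.inl (f5 p.1.1 k.castSucc, f3 p.1.2 k)
  let F2 : {p : B5 × B4 // U (f5 p.1 (Fin.last 4)) ∧ p.2 ≠ c₀} → Fin 4 →
      (T × Fin 3) ⊕ {x : T // U x} :=
    fun p k => (f4 p.1.2 k).elim (Sum.inr ⟨f5 p.1.1 (Fin.last 4), p.2.1⟩)
      (fun i => Sum.inl (f5 p.1.1 k.castSucc, i))
  let F3 : BU → Fin 4 → (T × Fin 3) ⊕ {x : T // U x} := fun p k => Sum.inr (fU p k)
  have hlast : ∀ k : Fin 4, k.castSucc ≠ Fin.last 4 := fun k => (Fin.castSucc_lt_last k).ne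
  have hcs : ∀ k l : Fin 4, k ≠ l → k.castSucc ≠ l.castSucc := fun k l h h' =>
    h (Fin.castSucc_injective 4 h')
  -- injectivity helpers
  have i5 : ∀ (k l : Fin 5) (b b' : B5), k ≠ l → f5 b k = f5 b' k → f5 b l = f5 b' l → b = b' :=
    fun k l b b' h h1 h2 => (hf5 k l h).1 (by simp [h1, h2])
  have i4 : ∀ (k l : Fin 4) (b b' : B4), k ≠ l → f4 b k = f4 b' k → f4 b l = f4 b' l → b = b' :=
    fun k l b b' h h1 h2 => (hf4 k l h).1 (by simp [h1, h2])
  have i3 : ∀ (k l : Fin 4) (b b' : B3), k ≠ l → f3 b k = f3 b' k → f3 b l = f3 b' l → b = b' :=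
    fun k l b b' h h1 h2 => (hf3 k l h).1 (by simp [h1, h2])
  have iU : ∀ (k l : Fin 4) (b b' : BU), k ≠ l → fU b k = fU b' k → fU b l = fU b' l → b = b' :=
    fun k l b b' h h1 h2 => (hfU k l h).1 (by simp [h1, h2])
  have s5 : ∀ (k l : Fin 5) (x y : T), k ≠ l → ∃ b, f5 b k = x ∧ f5 b l = y := by
    intro k l x y h
    obtain ⟨b, hb⟩ := (hf5 k l h).2 (x, y)
    simp only [Prod.mk.injEq] at hb
    exact ⟨b, hb⟩
  have s4 : ∀ (k l : Fin 4) (x y : Option (Fin 3)), k ≠ l → ∃ b, f4 b k = x ∧ f4 b l = y := by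
    intro k l x y h
    obtain ⟨b, hb⟩ := (hf4 k l h).2 (x, y)
    simp only [Prod.mk.injEq] at hb
    exact ⟨b, hb⟩
  have s3 : ∀ (k l : Fin 4) (x y : Fin 3), k ≠ l → ∃ b, f3 b k = x ∧ f3 b l = y := by
    intro k l x y h
    obtain ⟨b, hb⟩ := (hf3 k l h).2 (x, y)
    simp only [Prod.mk.injEq] at hb
    exact ⟨b, hb⟩
  have sU : ∀ (k l : Fin 4) (x y : {x : T // U x}), k ≠ l → ∃ b, fU b k = x ∧ fU b l = y := by
    intro k l x y h
    obtain ⟨b, hb⟩ := (hfU k l h).2 (x, y)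
    simp only [Prod.mk.injEq] at hb
    exact ⟨b, hb⟩
  have F2none : ∀ (p) (k : Fin 4), f4 p.1.2 k = none →
      F2 p k = Sum.inr ⟨f5 p.1.1 (Fin.last 4), p.2.1⟩ := by
    intro p k h; simp only [F2, h, Option.elim]
  have F2some : ∀ (p) (k : Fin 4) (i : Fin 3), f4 p.1.2 k = some i →
      F2 p k = Sum.inl (f5 p.1.1 k.castSucc, i) := by
    intro p k i h; simp only [F2, h, Option.elim]
  refine ⟨({p : B5 × B3 // ¬ U (f5 p.1 (Fin.last 4))} ⊕
      {p : B5 × B4 // U (f5 p.1 (Fin.last 4)) ∧ p.2 ≠ c₀}) ⊕ BU,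
    fun b k => Sum.elim (fun b' => Sum.elim (fun p => F1 p k) (fun p => F2 p k) b')
      (fun p => F3 p k) b, fun k l hkl => ⟨?_, ?_⟩⟩
  · have key12 : ∀ p q, F1 p k = F2 q k → F1 p l = F2 q l → False := by
      intro p q h1 h2
      rcases h : f4 q.1.2 k with _ | i
      · rw [F2none q k h] at h1; simp [F1] at h1
      rcases h' : f4 q.1.2 l with _ | j
      · rw [F2none q l h'] at h2; simp [F1] at h2
      rw [F2some q k i h] at h1
      rw [F2some q l j h'] at h2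
      simp only [F1, Sum.inl.injEq, Prod.mk.injEq] at h1 h2
      have hb := i5 _ _ _ _ (hcs k l hkl) h1.1 h2.1
      exact p.2 (by rw [hb]; exact q.2.1)
    have key23 : ∀ q r, F2 q k = F3 r k → F2 q l = F3 r l → False := by
      intro q r h1 h2
      rcases h : f4 q.1.2 k with _ | i
      · rcases h' : f4 q.1.2 l with _ | j
        · exact q.2.2 (i4 k l _ _ hkl (by rw [h, hc₀]) (by rw [h', hc₀]))
        · rw [F2some q l j h'] at h2; simp [F3] at h2
      · rw [F2some q k i h] at h1; simp [F3] at h1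
    have key22 : ∀ q r, F2 q k = F2 r k → F2 q l = F2 r l → q = r := by
      rintro ⟨⟨b, c⟩, hb1, hb2⟩ ⟨⟨b', c'⟩, hb1', hb2'⟩ h1 h2
      rcases h : f4 c k with _ | i
      · rcases h3 : f4 c' k with _ | i'
        · rw [F2none ⟨⟨b, c⟩, hb1, hb2⟩ k h, F2none ⟨⟨b', c'⟩, hb1', hb2'⟩ k h3] at h1
          simp only [Sum.inr.injEq, Subtype.mk.injEq] at h1
          rcases h4 : f4 c l with _ | j
          · exact absurd (i4 k l _ _ hkl (by rw [h, hc₀]) (by rw [h4, hc₀])) hb2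
          rcases h5 : f4 c' l with _ | j'
          · exact absurd (i4 k l _ _ hkl (by rw [h3, hc₀]) (by rw [h5, hc₀])) hb2'
          rw [F2some ⟨⟨b, c⟩, hb1, hb2⟩ l j h4, F2some ⟨⟨b', c'⟩, hb1', hb2'⟩ l j' h5] at h2
          simp only [Sum.inl.injEq, Prod.mk.injEq] at h2
          have e1 : b = b' := i5 _ _ _ _ (hlast l) h2.1 h1
          have e2 : c = c' := i4 k l _ _ hkl (by rw [h, h3]) (by rw [h4, h5, h2.2])
          subst e1; subst e2; rfl
        · rw [F2none ⟨⟨b, c⟩, hb1, hb2⟩ k h, F2some ⟨⟨b', c'⟩, hb1', hb2'⟩ k i' h3] at h1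
          simp at h1
      · rcases h3 : f4 c' k with _ | i'
        · rw [F2some ⟨⟨b, c⟩, hb1, hb2⟩ k i h, F2none ⟨⟨b', c'⟩, hb1', hb2'⟩ k h3] at h1
          simp at h1
        rw [F2some ⟨⟨b, c⟩, hb1, hb2⟩ k i h, F2some ⟨⟨b', c'⟩, hb1', hb2'⟩ k i' h3] at h1
        simp only [Sum.inl.injEq, Prod.mk.injEq] at h1
        rcases h4 : f4 c l with _ | j
        · rcases h5 : f4 c' l with _ | j'
          · rw [F2none ⟨⟨b, c⟩, hb1, hb2⟩ l h4, F2none ⟨⟨b', c'⟩, hb1', hb2'⟩ l h5] at h2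
            simp only [Sum.inr.injEq, Subtype.mk.injEq] at h2
            have e1 : b = b' := i5 _ _ _ _ (hlast k) h1.1 h2
            have e2 : c = c' := i4 k l _ _ hkl (by rw [h, h3, h1.2]) (by rw [h4, h5])
            subst e1; subst e2; rfl
          · rw [F2none ⟨⟨b, c⟩, hb1, hb2⟩ l h4, F2some ⟨⟨b', c'⟩, hb1', hb2'⟩ l j' h5] at h2
            simp at h2
        · rcases h5 : f4 c' l with _ | j'
          · rw [F2some ⟨⟨b, c⟩, hb1, hb2⟩ l j h4, F2none ⟨⟨b', c'⟩, hb1', hb2'⟩ l h5] at h2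
            simp at h2
          · rw [F2some ⟨⟨b, c⟩, hb1, hb2⟩ l j h4, F2some ⟨⟨b', c'⟩, hb1', hb2'⟩ l j' h5] at h2
            simp only [Sum.inl.injEq, Prod.mk.injEq] at h2
            have e1 : b = b' := i5 _ _ _ _ (hcs k l hkl) h1.1 h2.1
            have e2 : c = c' := i4 k l _ _ hkl (by rw [h, h3, h1.2]) (by rw [h4, h5, h2.2])
            subst e1; subst e2; rfl
    rintro ((p | p) | p) ((q | q) | q) h
    all_goals simp only [Sum.elim_inl, Sum.elim_inr, Prod.mk.injEq] at h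
    · obtain ⟨⟨b, c⟩, hp⟩ := p
      obtain ⟨⟨b', c'⟩, hq⟩ := q
      simp only [F1, Sum.inl.injEq, Prod.mk.injEq] at h
      have e1 : b = b' := i5 _ _ _ _ (hcs k l hkl) h.1.1 h.2.1
      have e2 : c = c' := i3 k l _ _ hkl h.1.2 h.2.2
      subst e1; subst e2; rfl
    · exact (key12 p q h.1 h.2).elim
    · simp [F1, F3] at h
    · exact (key12 q p h.1.symm h.2.symm).elim
    · rw [key22 p q h.1 h.2]
    · exact (key23 p q h.1 h.2).elim
    · simp [F1, F3] at h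
    · exact (key23 q p h.1.symm h.2.symm).elim
    · simp only [F3, Sum.inr.injEq] at h
      rw [iU k l p q hkl h.1 h.2]
  · rintro ⟨x | x, y | y⟩
    · obtain ⟨b, hb1, hb2⟩ := s5 _ _ x.1 y.1 (hcs k l hkl)
      by_cases hU' : U (f5 b (Fin.last 4))
      · obtain ⟨c, hc1, hc2⟩ := s4 k l (some x.2) (some y.2) hkl
        have hc : c ≠ c₀ := by rintro rfl; rw [hc₀] at hc1; simp at hc1
        refine ⟨Sum.inl (Sum.inr ⟨(b, c), hU', hc⟩), ?_⟩
        simp only [Sum.elim_inl, Sum.elim_inr]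
        rw [F2some ⟨(b, c), hU', hc⟩ k _ hc1, F2some ⟨(b, c), hU', hc⟩ l _ hc2]
        simp only [hb1, hb2]
      · obtain ⟨c, hc1, hc2⟩ := s3 k l x.2 y.2 hkl
        refine ⟨Sum.inl (Sum.inl ⟨(b, c), hU'⟩), ?_⟩
        simp only [Sum.elim_inl, F1, hb1, hb2, hc1, hc2]
    · obtain ⟨b, hb1, hb2⟩ := s5 _ _ x.1 y.1 (hlast k)
      obtain ⟨c, hc1, hc2⟩ := s4 k l (some x.2) none hkl
      have hc : c ≠ c₀ := by rintro rfl; rw [hc₀] at hc1; simp at hc1
      have hU' : U (f5 b (Fin.last 4)) := by rw [hb2]; exact y.2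
      refine ⟨Sum.inl (Sum.inr ⟨(b, c), hU', hc⟩), ?_⟩
      simp only [Sum.elim_inl, Sum.elim_inr]
      rw [F2some ⟨(b, c), hU', hc⟩ k _ hc1, F2none ⟨(b, c), hU', hc⟩ l hc2]
      simp only [hb1, hb2]
    · obtain ⟨b, hb1, hb2⟩ := s5 _ _ y.1 x.1 (hlast l)
      obtain ⟨c, hc1, hc2⟩ := s4 k l none (some y.2) hkl
      have hc : c ≠ c₀ := by rintro rfl; rw [hc₀] at hc2; simp at hc2
      have hU' : U (f5 b (Fin.last 4)) := by rw [hb2]; exact x.2
      refine ⟨Sum.inl (Sum.inr ⟨(b, c), hU', hc⟩), ?_⟩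
      simp only [Sum.elim_inl, Sum.elim_inr]
      rw [F2none ⟨(b, c), hU', hc⟩ k hc1, F2some ⟨(b, c), hU', hc⟩ l _ hc2]
      simp only [hb1, hb2]
    · obtain ⟨b, hb1, hb2⟩ := sU k l x y hkl
      exact ⟨Sum.inr b, by simp only [Sum.elim_inr, F3, hb1, hb2]⟩

end Pool.Agent.Hhelper81.MOLS
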