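import Pool.Agent.Hhelper81.MOLS.Small

/-! Orthogonal mates (transversal designs with four groups) for all even orders `n ≥ 10`, and the
resulting latin squares of order `n` with `n` disjoint transversals. -/

set_option autoImplicit false

namespace Pool.Agent.Hhelper81.MOLS

theorem HasTD.of_card {k : ℕ} {X : Type} [Fintype X] {n : ℕ} (h : HasTD k X)
    (hn : Fintype.card X = n) : HasTD k (Fin n) :=
  h.equiv (Fintype.equivFinOfCardEq hn)

theorem isUnit_two_zmod {m : ℕ} (hm : Odd m) : IsUnit (2 : ZMod m) := by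
  have := (ZMod.isUnit_iff_coprime 2 m).2 (Nat.coprime_two_left.2 hm)
  simpa using this

/-- odd orders -/
theorem hasTD_odd {m : ℕ} (hm : Odd m) : HasTD 4 (Fin m) := by
  have : NeZero m := ⟨by rintro rfl; simp at hm⟩
  have h : HasTD 4 (ZMod m) := hasTD_four 2 (isUnit_two_zmod hm) (by norm_num)
  exact h.of_card (ZMod.card m)

/-- five groups, orders prime to six -/
theorem hasTD_five_coprime {m : ℕ} (h2 : Odd m) (h3 : Nat.Coprime 3 m) : HasTD 5 (Fin m) := by
  have : NeZero m := ⟨by rintro rfl; simp at h2⟩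
  have h3' : IsUnit (3 : ZMod m) := by
    have := (ZMod.isUnit_iff_coprime 3 m).2 h3
    simpa using this
  exact (hasTD_five (isUnit_two_zmod h2) h3').of_card (ZMod.card m)

theorem HasTD.prod_fin {k m n : ℕ} (h : HasTD k (Fin m)) (h' : HasTD k (Fin n)) :
    HasTD k (Fin (m * n)) :=
  (h.prod h').of_card (by simp)

/-- powers of two, at least four -/
theorem hasTD_two_pow {a : ℕ} (ha : 2 ≤ a) : HasTD 4 (Fin (2 ^ a)) := by
  have : Fact (Nat.Prime 2) := ⟨Nat.prime_two⟩
  have hcard : Nat.card (GaloisField 2 a) = 2 ^ a := GaloisField.card 2 a (by omega)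
  have : Finite (GaloisField 2 a) := Nat.finite_of_card_ne_zero (by rw [hcard]; positivity)
  have := Fintype.ofFinite (GaloisField 2 a)
  have hc : Fintype.card (GaloisField 2 a) = 2 ^ a := by rw [← Nat.card_eq_fintype_card, hcard]
  have h4 : 4 ≤ 2 ^ a := by
    calc 4 = 2 ^ 2 := by norm_num
      _ ≤ 2 ^ a := Nat.pow_le_pow_right (by norm_num) ha
  classical
  obtain ⟨u, hu⟩ : ∃ u : GaloisField 2 a, u ∉ ({0, 1} : Finset (GaloisField 2 a)) := by
    by_contra hcon
    push Not at hcon
    have h5 : (Finset.univ : Finset (GaloisField 2 a)) ⊆ {0, 1} := fun x _ => hcon x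
    have h6 := Finset.card_le_card h5
    rw [Finset.card_univ, hc] at h6
    have h7 : ({0, 1} : Finset (GaloisField 2 a)).card ≤ 2 := Finset.card_le_two
    omega
  simp only [Finset.mem_insert, Finset.mem_singleton, not_or] at hu
  exact (hasTD_four u (isUnit_iff_ne_zero.2 hu.1)
    (isUnit_iff_ne_zero.2 (sub_ne_zero.2 hu.2))).of_card hc

/-- multiples of four -/
theorem hasTD_four_dvd {n : ℕ} (hn : 0 < n) (h : 4 ∣ n) : HasTD 4 (Fin n) := by
  obtain ⟨a, m, hm, rfl⟩ := Nat.exists_eq_two_pow_mul_odd hn.ne'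
  have ha : 2 ≤ a := by
    by_contra hcon
    have h' : 2 ^ a = 1 ∨ 2 ^ a = 2 := by
      interval_cases a <;> simp
    obtain ⟨k, hk⟩ := hm
    rcases h' with h' | h' <;> rw [h'] at h <;> omega
  exact (hasTD_two_pow ha).prod_fin (hasTD_odd hm)

/-- Wilson's construction for `3 t + u` -/
theorem hasTD_wilson {t u : ℕ} (h2 : Odd t) (h3 : Nat.Coprime 3 t) (hu : Odd u) (hut : u ≤ t) :
    HasTD 4 (Fin (3 * t + u)) := by
  have h5 : HasTD 5 (Fin t) := hasTD_five_coprime h2 h3
  have hc : Fintype.card {x : Fin t // x.val < u} = u := by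
    rw [Fintype.card_subtype]
    have : (Finset.univ.filter fun x : Fin t => x.val < u) =
        (Finset.univ : Finset (Fin u)).map (Fin.castLEEmb hut) := by
      ext x
      simp only [Finset.mem_filter, Finset.mem_univ, true_and, Finset.mem_map]
      constructor
      · intro hx
        exact ⟨⟨x.val, hx⟩, rfl⟩
      · rintro ⟨y, rfl⟩
        exact y.2
    rw [this, Finset.card_map, Finset.card_univ, Fintype.card_fin]
  have hU : HasTD 4 {x : Fin t // x.val < u} :=
    (hasTD_odd hu).equiv (Fintype.equivFinOfCardEq hc).symm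
  have hw := wilson (fun x : Fin t => x.val < u) h5 (hasTD_odd (by decide)) td44 hU
  refine hw.of_card ?_
  rw [Fintype.card_sum, Fintype.card_prod, Fintype.card_fin, Fintype.card_fin, hc]
  ring

/-- pairs of orthogonal latin squares for all even orders at least ten -/
theorem hasTD_even {n : ℕ} (hn : Even n) (h10 : 10 ≤ n) : HasTD 4 (Fin n) := by
  by_cases h4 : 4 ∣ n
  · exact hasTD_four_dvd (by omega) h4
  by_cases e10 : n = 10
  · subst e10; exact hasTD_ten
  by_cases e14 : n = 14
  · subst e14; exact hasTD_fourteen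
  by_cases e30 : n = 30
  · subst e30; exact (hasTD_odd (m := 3) (by decide)).prod_fin hasTD_ten
  obtain ⟨l, rfl⟩ := hn
  -- choose t
  obtain ⟨t, ht6, ht1, ht2⟩ : ∃ t : ℕ, (t % 6 = 1 ∨ t % 6 = 5) ∧ 3 * t < l + l ∧ l + l ≤ 4 * t := by
    by_cases hs : l + l < 46
    · have : l + l = 18 ∨ l + l = 22 ∨ l + l = 26 ∨ l + l = 34 ∨ l + l = 38 ∨ l + l = 42 := by
        omega
      rcases this with h | h | h | h | h | h
      · exact ⟨5, by omega, by omega, by omega⟩
      · exact ⟨7, by omega, by omega, by omega⟩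
      · exact ⟨7, by omega, by omega, by omega⟩
      · exact ⟨11, by omega, by omega, by omega⟩
      · exact ⟨11, by omega, by omega, by omega⟩
      · exact ⟨11, by omega, by omega, by omega⟩
    · have hr : ((l + 1) / 2) % 6 < 6 := Nat.mod_lt _ (by norm_num)
      set q := (l + 1) / 2 with hq
      have hcase : q % 6 = 0 ∨ q % 6 = 1 ∨ q % 6 = 2 ∨ q % 6 = 3 ∨ q % 6 = 4 ∨ q % 6 = 5 := by
        omega
      rcases hcase with h | h | h | h | h | h
      · exact ⟨q + 1, by omega, by omega, by omega⟩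
      · exact ⟨q, by omega, by omega, by omega⟩
      · exact ⟨q + 3, by omega, by omega, by omega⟩
      · exact ⟨q + 2, by omega, by omega, by omega⟩
      · exact ⟨q + 1, by omega, by omega, by omega⟩
      · exact ⟨q, by omega, by omega, by omega⟩
  have h2 : Odd t := by rw [Nat.odd_iff]; omega
  have h3 : Nat.Coprime 3 t := by
    rw [Nat.Prime.coprime_iff_not_dvd Nat.prime_three]
    omega
  have hl : l % 2 = 1 := by omega
  have hu : Odd (l + l - 3 * t) := by rw [Nat.odd_iff]; omega
  have := hasTD_wilson h2 h3 hu (by omega)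
  rwa [show 3 * t + (l + l - 3 * t) = l + l by omega] at this

/-- For every even `n ≥ 10` there is a latin square of order `n` with `n` pairwise disjoint
transversals. -/
theorem exists_disjoint_transversals (n : ℕ) (hn : Even n) (h : 10 ≤ n) :
    ∃ L : Fin n → Fin n → Fin n,
      (∀ i, Function.Injective (L i)) ∧
      (∀ j, Function.Injective (fun i => L i j)) ∧
      (∃ S : Finset (Equiv.Perm (Fin n)), S.card = n ∧
        (∀ σ ∈ S, Function.Injective (fun i => L i (σ i))) ∧
        (∀ σ ∈ S, ∀ τ ∈ S, σ ≠ τ → ∀ i, σ i ≠ τ i)) := by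
  obtain ⟨B, f, hf⟩ := hasTD_even hn h
  have inj : ∀ (i j : Fin 4) (b b' : B), i ≠ j → f b i = f b' i → f b j = f b' j → b = b' :=
    fun i j b b' hij h1 h2 => (hf i j hij).1 (by simp [h1, h2])
  have surj : ∀ (i j : Fin 4) (x y : Fin n), i ≠ j → ∃ b, f b i = x ∧ f b j = y := by
    intro i j x y hij
    obtain ⟨b, hb⟩ := (hf i j hij).2 (x, y)
    simp only [Prod.mk.injEq] at hb
    exact ⟨b, hb⟩
  choose blk hblk1 hblk2 using fun (x y : Fin n) => surj 0 1 x y (by decide)
  choose blm hblm1 hblm2 using fun (m x : Fin n) => surj 3 0 m x (by decide)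
  have hnpos : 0 < n := by omega
  -- the transversal of the symbol `m`
  have hσinj : ∀ m : Fin n, Function.Injective (fun i => f (blm m i) 1) := by
    intro m i i' hii
    have : blm m i = blm m i' := inj 3 1 _ _ (by decide) (by rw [hblm1, hblm1]) hii
    rw [← hblm2 m i, ← hblm2 m i', this]
  let σ : Fin n → Equiv.Perm (Fin n) := fun m =>
    Equiv.ofBijective (fun i => f (blm m i) 1) (Finite.injective_iff_bijective.1 (hσinj m))
  have hσ : ∀ m i, σ m i = f (blm m i) 1 := fun m i => rfl
  have hblk : ∀ m i, blk i (σ m i) = blm m i := by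
    intro m i
    exact inj 0 1 _ _ (by decide) (by rw [hblk1, hblm2]) (by rw [hblk2, hσ])
  have hdisj : ∀ m m' i, σ m i = σ m' i → m = m' := by
    intro m m' i hmm
    have : blm m i = blm m' i := inj 0 1 _ _ (by decide) (by rw [hblm2, hblm2])
      (by rw [← hσ, ← hσ, hmm])
    rw [← hblm1 m i, ← hblm1 m' i, this]
  refine ⟨fun i j => f (blk i j) 2, ?_, ?_, Finset.univ.image σ, ?_, ?_, ?_⟩
  · intro i j j' hjj
    have : blk i j = blk i j' := inj 0 2 _ _ (by decide) (by rw [hblk1, hblk1]) hjj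
    rw [← hblk2 i j, ← hblk2 i j', this]
  · intro j i i' hii
    have : blk i j = blk i' j := inj 1 2 _ _ (by decide) (by rw [hblk2, hblk2]) hii
    rw [← hblk1 i j, ← hblk1 i' j, this]
  · rw [Finset.card_image_of_injective]
    · simp
    · intro m m' hmm
      exact hdisj m m' ⟨0, hnpos⟩ (by rw [hmm])
  · intro τ hτ
    simp only [Finset.mem_image, Finset.mem_univ, true_and] at hτ
    obtain ⟨m, rfl⟩ := hτ
    intro i i' hii
    simp only [hblk] at hii
    have : blm m i = blm m i' := inj 3 2 _ _ (by decide) (by rw [hblm1, hblm1]) hii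
    rw [← hblm2 m i, ← hblm2 m i', this]
  · intro τ hτ τ' hτ' hne i hi
    simp only [Finset.mem_image, Finset.mem_univ, true_and] at hτ hτ'
    obtain ⟨m, rfl⟩ := hτ
    obtain ⟨m', rfl⟩ := hτ'
    exact hne (by rw [hdisj m m' i hi])

/-- A pairwise disjoint family of transversals has at most `n` members. -/
theorem card_disjoint_le {n : ℕ} (hn : 0 < n) (S : Finset (Equiv.Perm (Fin n)))
    (hS : ∀ σ ∈ S, ∀ τ ∈ S, σ ≠ τ → ∀ i, σ i ≠ τ i) : S.card ≤ n := by
  have h := Finset.card_le_card_of_injOn (s := S) (t := (Finset.univ : Finset (Fin n)))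
    (fun σ => σ ⟨0, hn⟩) (fun _ _ => Finset.mem_coe.2 (Finset.mem_univ _)) (by
      intro σ hσ τ hτ hστ
      by_contra hne
      exact hS σ hσ τ hτ hne _ hστ)
  simpa using h

/-- the case `m = n` of the frozen statement -/
theorem exists_max_transversals (n : ℕ) (hn : Even n) (h : 10 ≤ n) :
    ∃ L : Fin n → Fin n → Fin n,
      (∀ i, Function.Injective (L i)) ∧
      (∀ j, Function.Injective (fun i => L i j)) ∧
      (∃ S : Finset (Equiv.Perm (Fin n)), S.card = n ∧
        (∀ σ ∈ S, Function.Injective (fun i => L i (σ i))) ∧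
        (∀ σ ∈ S, ∀ τ ∈ S, σ ≠ τ → ∀ i, σ i ≠ τ i)) ∧
      ∀ S : Finset (Equiv.Perm (Fin n)),
        (∀ σ ∈ S, Function.Injective (fun i => L i (σ i))) →
        (∀ σ ∈ S, ∀ τ ∈ S, σ ≠ τ → ∀ i, σ i ≠ τ i) →
        S.card ≤ n := by
  obtain ⟨L, h1, h2, h3⟩ := exists_disjoint_transversals n hn h
  exact ⟨L, h1, h2, h3, fun S _ hS => card_disjoint_le (by omega) S hS⟩

end Pool.Agent.Hhelper81.MOLS
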