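import Pool.Agent.Hhelper81.MOLS.Basic

/-! Explicit pairs of orthogonal latin squares of orders 10 and 14, and `TD(4, 4)`. -/

set_option autoImplicit false

namespace Pool.Agent.Hhelper81.MOLS

/-- read a table -/
def rd (n : ℕ) [NeZero n] (t : List (List ℕ)) (i j : Fin n) : Fin n :=
  Fin.ofNat n ((t.getD i.val []).getD j.val 0)

/-- table -/
def tL10 : List (List ℕ) :=
  [[0, 6, 5, 4, 9, 8, 7, 1, 2, 3],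
    [7, 1, 0, 6, 5, 9, 8, 2, 3, 4],
    [8, 7, 2, 1, 0, 6, 9, 3, 4, 5],
    [9, 8, 7, 3, 2, 1, 0, 4, 5, 6],
    [1, 9, 8, 7, 4, 3, 2, 5, 6, 0],
    [3, 2, 9, 8, 7, 5, 4, 6, 0, 1],
    [5, 4, 3, 9, 8, 7, 6, 0, 1, 2],
    [2, 3, 4, 5, 6, 0, 1, 7, 8, 9],
    [4, 5, 6, 0, 1, 2, 3, 8, 9, 7],
    [6, 0, 1, 2, 3, 4, 5, 9, 7, 8]]

/-- table -/
def tM10 : List (List ℕ) :=
  [[0, 7, 8, 9, 1, 3, 5, 2, 4, 6],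
    [6, 1, 7, 8, 9, 2, 4, 3, 5, 0],
    [5, 0, 2, 7, 8, 9, 3, 4, 6, 1],
    [4, 6, 1, 3, 7, 8, 9, 5, 0, 2],
    [9, 5, 0, 2, 4, 7, 8, 6, 1, 3],
    [8, 9, 6, 1, 3, 5, 7, 0, 2, 4],
    [7, 8, 9, 0, 2, 4, 6, 1, 3, 5],
    [1, 2, 3, 4, 5, 6, 0, 7, 9, 8],
    [2, 3, 4, 5, 6, 0, 1, 8, 7, 9],
    [3, 4, 5, 6, 0, 1, 2, 9, 8, 7]]

/-- table -/
def tR10 : List (List ℕ) :=
  [[0, 6, 5, 4, 9, 8, 7, 1, 2, 3],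
    [7, 1, 0, 6, 5, 9, 8, 2, 3, 4],
    [8, 7, 2, 1, 0, 6, 9, 3, 4, 5],
    [9, 8, 7, 3, 2, 1, 0, 4, 5, 6],
    [1, 9, 8, 7, 4, 3, 2, 5, 6, 0],
    [3, 2, 9, 8, 7, 5, 4, 6, 0, 1],
    [5, 4, 3, 9, 8, 7, 6, 0, 1, 2],
    [2, 3, 4, 5, 6, 0, 1, 7, 9, 8],
    [4, 5, 6, 0, 1, 2, 3, 9, 8, 7],
    [6, 0, 1, 2, 3, 4, 5, 8, 7, 9]]

/-- table -/
def tC10 : List (List ℕ) :=
  [[0, 7, 8, 9, 1, 3, 5, 2, 4, 6],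
    [6, 1, 7, 8, 9, 2, 4, 3, 5, 0],
    [5, 0, 2, 7, 8, 9, 3, 4, 6, 1],
    [4, 6, 1, 3, 7, 8, 9, 5, 0, 2],
    [9, 5, 0, 2, 4, 7, 8, 6, 1, 3],
    [8, 9, 6, 1, 3, 5, 7, 0, 2, 4],
    [7, 8, 9, 0, 2, 4, 6, 1, 3, 5],
    [1, 2, 3, 4, 5, 6, 0, 7, 8, 9],
    [2, 3, 4, 5, 6, 0, 1, 9, 7, 8],
    [3, 4, 5, 6, 0, 1, 2, 8, 9, 7]]

/-- table -/
def tL14 : List (List ℕ) :=
  [[0, 2, 9, 6, 10, 7, 13, 12, 11, 8, 3, 5, 1, 4],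
    [4, 1, 3, 10, 7, 0, 8, 13, 12, 11, 9, 6, 2, 5],
    [10, 5, 2, 4, 0, 8, 1, 9, 13, 12, 11, 7, 3, 6],
    [11, 0, 6, 3, 5, 1, 9, 2, 10, 13, 12, 8, 4, 7],
    [12, 11, 1, 7, 4, 6, 2, 10, 3, 0, 13, 9, 5, 8],
    [13, 12, 11, 2, 8, 5, 7, 3, 0, 4, 1, 10, 6, 9],
    [2, 13, 12, 11, 3, 9, 6, 8, 4, 1, 5, 0, 7, 10],
    [6, 3, 13, 12, 11, 4, 10, 7, 9, 5, 2, 1, 8, 0],
    [3, 7, 4, 13, 12, 11, 5, 0, 8, 10, 6, 2, 9, 1],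
    [7, 4, 8, 5, 13, 12, 11, 6, 1, 9, 0, 3, 10, 2],
    [1, 8, 5, 9, 6, 13, 12, 11, 7, 2, 10, 4, 0, 3],
    [8, 9, 10, 0, 1, 2, 3, 4, 5, 6, 7, 11, 12, 13],
    [5, 6, 7, 8, 9, 10, 0, 1, 2, 3, 4, 12, 13, 11],
    [9, 10, 0, 1, 2, 3, 4, 5, 6, 7, 8, 13, 11, 12]]

/-- table -/
def tM14 : List (List ℕ) :=
  [[0, 4, 10, 11, 12, 13, 2, 6, 3, 7, 1, 8, 5, 9],
    [2, 1, 5, 0, 11, 12, 13, 3, 7, 4, 8, 9, 6, 10],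
    [9, 3, 2, 6, 1, 11, 12, 13, 4, 8, 5, 10, 7, 0],
    [6, 10, 4, 3, 7, 2, 11, 12, 13, 5, 9, 0, 8, 1],
    [10, 7, 0, 5, 4, 8, 3, 11, 12, 13, 6, 1, 9, 2],
    [7, 0, 8, 1, 6, 5, 9, 4, 11, 12, 13, 2, 10, 3],
    [13, 8, 1, 9, 2, 7, 6, 10, 5, 11, 12, 3, 0, 4],
    [12, 13, 9, 2, 10, 3, 8, 7, 0, 6, 11, 4, 1, 5],
    [11, 12, 13, 10, 3, 0, 4, 9, 8, 1, 7, 5, 2, 6],
    [8, 11, 12, 13, 0, 4, 1, 5, 10, 9, 2, 6, 3, 7],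
    [3, 9, 11, 12, 13, 1, 5, 2, 6, 0, 10, 7, 4, 8],
    [5, 6, 7, 8, 9, 10, 0, 1, 2, 3, 4, 11, 13, 12],
    [1, 2, 3, 4, 5, 6, 7, 8, 9, 10, 0, 12, 11, 13],
    [4, 5, 6, 7, 8, 9, 10, 0, 1, 2, 3, 13, 12, 11]]

/-- table -/
def tR14 : List (List ℕ) :=
  [[0, 2, 9, 6, 10, 7, 13, 12, 11, 8, 3, 5, 1, 4],
    [4, 1, 3, 10, 7, 0, 8, 13, 12, 11, 9, 6, 2, 5],
    [10, 5, 2, 4, 0, 8, 1, 9, 13, 12, 11, 7, 3, 6],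
    [11, 0, 6, 3, 5, 1, 9, 2, 10, 13, 12, 8, 4, 7],
    [12, 11, 1, 7, 4, 6, 2, 10, 3, 0, 13, 9, 5, 8],
    [13, 12, 11, 2, 8, 5, 7, 3, 0, 4, 1, 10, 6, 9],
    [2, 13, 12, 11, 3, 9, 6, 8, 4, 1, 5, 0, 7, 10],
    [6, 3, 13, 12, 11, 4, 10, 7, 9, 5, 2, 1, 8, 0],
    [3, 7, 4, 13, 12, 11, 5, 0, 8, 10, 6, 2, 9, 1],
    [7, 4, 8, 5, 13, 12, 11, 6, 1, 9, 0, 3, 10, 2],
    [1, 8, 5, 9, 6, 13, 12, 11, 7, 2, 10, 4, 0, 3],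
    [8, 9, 10, 0, 1, 2, 3, 4, 5, 6, 7, 11, 13, 12],
    [5, 6, 7, 8, 9, 10, 0, 1, 2, 3, 4, 13, 12, 11],
    [9, 10, 0, 1, 2, 3, 4, 5, 6, 7, 8, 12, 11, 13]]

/-- table -/
def tC14 : List (List ℕ) :=
  [[0, 4, 10, 11, 12, 13, 2, 6, 3, 7, 1, 8, 5, 9],
    [2, 1, 5, 0, 11, 12, 13, 3, 7, 4, 8, 9, 6, 10],
    [9, 3, 2, 6, 1, 11, 12, 13, 4, 8, 5, 10, 7, 0],
    [6, 10, 4, 3, 7, 2, 11, 12, 13, 5, 9, 0, 8, 1],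
    [10, 7, 0, 5, 4, 8, 3, 11, 12, 13, 6, 1, 9, 2],
    [7, 0, 8, 1, 6, 5, 9, 4, 11, 12, 13, 2, 10, 3],
    [13, 8, 1, 9, 2, 7, 6, 10, 5, 11, 12, 3, 0, 4],
    [12, 13, 9, 2, 10, 3, 8, 7, 0, 6, 11, 4, 1, 5],
    [11, 12, 13, 10, 3, 0, 4, 9, 8, 1, 7, 5, 2, 6],
    [8, 11, 12, 13, 0, 4, 1, 5, 10, 9, 2, 6, 3, 7],
    [3, 9, 11, 12, 13, 1, 5, 2, 6, 0, 10, 7, 4, 8],
    [5, 6, 7, 8, 9, 10, 0, 1, 2, 3, 4, 11, 12, 13],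
    [1, 2, 3, 4, 5, 6, 7, 8, 9, 10, 0, 13, 11, 12],
    [4, 5, 6, 7, 8, 9, 10, 0, 1, 2, 3, 12, 13, 11]]


theorem hasTD_of_squares {n : ℕ} (L M R C : Fin n → Fin n → Fin n)
    (h1 : ∀ i j j', L i j = L i j' → j = j') (h2 : ∀ i i' j, L i j = L i' j → i = i')
    (h3 : ∀ i j j', M i j = M i j' → j = j') (h4 : ∀ i i' j, M i j = M i' j → i = i')
    (h5 : ∀ i j, R (L i j) (M i j) = i) (h6 : ∀ i j, C (L i j) (M i j) = j) :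
    HasTD 4 (Fin n) := by
  refine ⟨Fin n × Fin n, fun b => ![b.1, b.2, L b.1 b.2, M b.1 b.2], fun i j hij => ?_⟩
  rw [← Finite.injective_iff_bijective]
  rintro ⟨a, b⟩ ⟨a', b'⟩ h
  have h7 : L a b = L a' b' → M a b = M a' b' → a = a' ∧ b = b' := by
    intro e1 e2
    constructor
    · rw [← h5 a b, ← h5 a' b', e1, e2]
    · rw [← h6 a b, ← h6 a' b', e1, e2]
  fin_cases i <;> fin_cases j <;> simp at h hij ⊢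
  all_goals first
    | exact h
    | exact h.symm
    | exact ⟨h.2, h.1⟩
    | (obtain ⟨e, e'⟩ := h; subst e; exact ⟨rfl, h1 _ _ _ e'⟩)
    | (obtain ⟨e, e'⟩ := h; subst e; exact ⟨h2 _ _ _ e', rfl⟩)
    | (obtain ⟨e, e'⟩ := h; subst e; exact ⟨rfl, h3 _ _ _ e'⟩)
    | (obtain ⟨e, e'⟩ := h; subst e; exact ⟨h4 _ _ _ e', rfl⟩)
    | (obtain ⟨e', e⟩ := h; subst e; exact ⟨rfl, h1 _ _ _ e'⟩)
    | (obtain ⟨e', e⟩ := h; subst e; exact ⟨h2 _ _ _ e', rfl⟩)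
    | (obtain ⟨e', e⟩ := h; subst e; exact ⟨rfl, h3 _ _ _ e'⟩)
    | (obtain ⟨e', e⟩ := h; subst e; exact ⟨h4 _ _ _ e', rfl⟩)
    | exact h7 h.1 h.2
    | exact h7 h.2 h.1

set_option maxRecDepth 100000 in
theorem hasTD_ten : HasTD 4 (Fin 10) :=
  hasTD_of_squares (rd 10 tL10) (rd 10 tM10) (rd 10 tR10) (rd 10 tC10)
    (by decide +kernel) (by decide +kernel) (by decide +kernel) (by decide +kernel)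
    (by decide +kernel) (by decide +kernel)

set_option maxRecDepth 100000 in
theorem hasTD_fourteen : HasTD 4 (Fin 14) :=
  hasTD_of_squares (rd 14 tL14) (rd 14 tM14) (rd 14 tR14) (rd 14 tC14)
    (by decide +kernel) (by decide +kernel) (by decide +kernel) (by decide +kernel)
    (by decide +kernel) (by decide +kernel)

/-- multiplication by a generator in the field with four elements, as bit vectors -/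
def mulw : Fin 4 → Fin 4 := ![0, 2, 3, 1]

/-- addition in the field with four elements -/
def add4 : Fin 4 → Fin 4 → Fin 4 := fun a b => ![![0, 1, 2, 3], ![1, 0, 3, 2], ![2, 3, 0, 1],
  ![3, 2, 1, 0]] a b

/-- blocks of `TD(4, 4)` with a distinguished block -/
def blk4 (b : Fin 4 × Fin 4) : Fin 4 → Option (Fin 3) :=
  let e : Fin 4 → Option (Fin 3) := ![none, some 0, some 1, some 2]
  ![e b.1, e b.2, e (add4 b.1 b.2), e (add4 b.1 (mulw b.2))]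

theorem td44 : ∃ (B : Type) (f : B → Fin 4 → Option (Fin 3)) (b₀ : B), (∀ k, f b₀ k = none) ∧
      ∀ i j : Fin 4, i ≠ j → Function.Bijective (fun b : B => (f b i, f b j)) := by
  refine ⟨Fin 4 × Fin 4, blk4, (0, 0), by decide, ?_⟩
  intro i j hij
  rw [Fintype.bijective_iff_injective_and_card]
  refine ⟨?_, by simp⟩
  revert i j
  unfold Function.Injective
  decide +kernel

end Pool.Agent.Hhelper81.MOLS
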